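import Mathlib

open Set Filter Topology Complex Metric

namespace Pool.Agent.H.MP_5915c0_an

abbrev E := Fin 2 → ℂ

noncomputable def ρ : E →L[ℝ] Fin 2 → ℝ :=
  ContinuousLinearMap.pi fun i => imCLM.comp (ContinuousLinearMap.proj i)

noncomputable def c (w : E) : ℂ := w 0 + w 1 - I * (w 0 * w 1)
noncomputable def q (w : E) : ℂ := (w 0 + w 1 + I) * c w + w 0 ^ 3 * w 1
noncomputable def p (w : E) : EuclideanSpace ℂ (Fin 2) :=
  (q w - 2 * I * c w) • EuclideanSpace.single 0 1 + (2 * w 0 ^ 2 * w 1) • EuclideanSpace.single 1 1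
noncomputable def γ (w : E) : ℂ := w 0 * w 1 / c w
noncomputable def δ (w : E) : ℝ :=
  (w 0).im + (w 1).im + (w 0 ^ 2 * γ w).im - normSq (w 0 * γ w)

@[fun_prop] lemma an (i : Fin 2) (w : E) : AnalyticAt ℂ (fun w : E => w i) w :=
  (ContinuousLinearMap.proj (R := ℂ) (φ := fun _ : Fin 2 => ℂ) i).analyticAt w

@[fun_prop] lemma ac (w : E) : AnalyticAt ℂ c w := by unfold c; fun_prop
@[fun_prop] lemma aq (w : E) : AnalyticAt ℂ q w := by unfold q; fun_prop
lemma ap (w : E) : AnalyticAt ℂ p w := by unfold p; fun_prop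

lemma gam {w : E} (h0 : 0 < (w 0).im) (h1 : 0 < (w 1).im) :
    c w ≠ 0 ∧ normSq (γ w) ≤ 1 ∧ normSq (γ w) ≤ (γ w).im := by
  have n : ∀ s : ℂ, 0 < s.im → s ≠ 0 ∧ (s⁻¹).im < 0 := fun s h => by
    have : s ≠ 0 := fun e => by simp [e] at h
    exact ⟨this, by rw [inv_im]; exact div_neg_of_neg_of_pos (by linarith) (normSq_pos.2 this)⟩
  obtain ⟨a0, b0⟩ := n _ h0
  obtain ⟨a1, b1⟩ := n _ h1
  set D := (w 0)⁻¹ + (w 1)⁻¹ - I with hD
  have d : D.im ≤ -1 := by simp only [hD, sub_im, add_im, I_im]; linarith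
  have d1 : 1 ≤ normSq D := by rw [normSq_apply]; nlinarith [mul_self_nonneg D.re]
  have d0 : D ≠ 0 := normSq_pos.1 (by linarith)
  have e : c w = w 0 * w 1 * D := by simp only [c, hD]; field_simp; ring
  have g : γ w = D⁻¹ := by rw [γ, e]; field_simp
  refine ⟨e ▸ mul_ne_zero (mul_ne_zero a0 a1) d0, ?_, ?_⟩ <;> rw [g, normSq_inv]
  · exact inv_le_one_of_one_le₀ d1
  · rw [inv_im, inv_eq_one_div]; gcongr; linarith

lemma del {w : E} (hw : w ∈ ball (0 : E) (1 / 4)) (h0 : 0 < (w 0).im) (h1 : 0 < (w 1).im) :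
    0 < δ w ∧ δ w ≤ (w 0).im + (w 1).im + ‖w 0‖ ^ 2 := by
  obtain ⟨-, a, b⟩ := gam h0 h1
  have n : ‖w 0‖ < 1 / 4 := (norm_le_pi_norm w 0).trans_lt (mem_ball_zero_iff.1 hw)
  have x := abs_lt.1 ((abs_re_le_norm _).trans_lt n)
  have y := abs_lt.1 ((abs_im_le_norm _).trans_lt n)
  have g : ‖γ w‖ ≤ 1 := by rw [normSq_eq_norm_sq] at a; nlinarith [norm_nonneg (γ w)]
  have r := abs_le.1 ((abs_re_le_norm _).trans g)
  have i := abs_le.1 ((abs_im_le_norm _).trans g)
  constructor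
  · simp only [δ, sq, mul_im, mul_re, normSq_mul, normSq_apply (w 0)]
    have : -(1 / 4) ≤ (w 0).re * (γ w).re := by nlinarith
    nlinarith [mul_nonneg (mul_self_nonneg (w 0).re) (sub_nonneg.2 b), mul_pos h0 h0,
      mul_le_mul_of_nonneg_left this h0.le, mul_le_mul_of_nonneg_left a (mul_pos h0 h0).le,
      mul_le_mul_of_nonneg_left i.2 (mul_pos h0 h0).le]
  · have := (im_le_norm (w 0 ^ 2 * γ w)).trans_eq (norm_mul _ _)
    rw [norm_pow] at this
    unfold δ
    nlinarith [normSq_nonneg (w 0 * γ w), sq_nonneg ‖w 0‖]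

lemma nrm {w : E} (hw : w ∈ ball (0 : E) (1 / 4)) (h0 : 0 < (w 0).im) (h1 : 0 < (w 1).im) :
    q w ≠ 0 ∧ ‖(q w)⁻¹ • p w‖ < 1 ∧ 1 - 4 * δ w ≤ ‖(q w)⁻¹ • p w‖ := by
  obtain ⟨c0, -⟩ := gam h0 h1
  obtain ⟨d0, -⟩ := del hw h0 h1
  set u := w 0 + w 1 + w 0 ^ 2 * γ w with hu
  have e : q w = c w * (u + I) := by simp only [q, hu, γ]; field_simp; ring
  have d : δ w = u.im - normSq (w 0 * γ w) := by simp [δ, hu]
  have u1 : 1 ≤ normSq (u + I) := by
    simp only [normSq_apply, add_im, I_im]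
    nlinarith [mul_self_nonneg (u + I).re, normSq_nonneg (w 0 * γ w)]
  have u0 : u + I ≠ 0 := normSq_pos.1 (by linarith)
  have k : ‖(q w)⁻¹ • p w‖ ^ 2 = 1 - 4 * δ w / normSq (u + I) := by
    have a : ((q w)⁻¹ • p w) 0 = (u - I) / (u + I) := by
      simp [p, e]; field_simp; ring
    have b : ((q w)⁻¹ • p w) 1 = 2 * (w 0 * γ w) / (u + I) := by
      simp [p, e, γ]; field_simp
    rw [EuclideanSpace.norm_sq_eq, Fin.sum_univ_two, a, b, ← normSq_eq_norm_sq,
      ← normSq_eq_norm_sq, normSq_div, normSq_div, normSq_mul, d]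
    field_simp
    simp [normSq_apply u, normSq_add, normSq_sub]
    ring
  have l : 0 < 4 * δ w / normSq (u + I) := by positivity
  have m : 4 * δ w / normSq (u + I) ≤ 4 * δ w := div_le_self (by positivity) u1
  have n := norm_nonneg ((q w)⁻¹ • p w)
  have : ‖(q w)⁻¹ • p w‖ < 1 := by nlinarith
  exact ⟨e ▸ mul_ne_zero c0 u0, this, by nlinarith⟩

lemma lim {m : E} (h0 : (m 0).im = 0) (h1 : (m 1).im = 0) :
    Tendsto δ (𝓝[{w | w ∈ ball (0 : E) (1 / 4) ∧ ∀ i, 0 < (w i).im}] m) (𝓝 0) := by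
  by_cases h : m 0 = 0
  · have : ContinuousAt (fun w : E => (w 0).im + (w 1).im + ‖w 0‖ ^ 2) m := by fun_prop
    refine squeeze_zero' (eventually_nhdsWithin_of_forall fun w hw =>
      (del hw.1 (hw.2 0) (hw.2 1)).1.le) (eventually_nhdsWithin_of_forall fun w hw =>
      (del hw.1 (hw.2 0) (hw.2 1)).2) (tendsto_nhdsWithin_of_tendsto_nhds ?_)
    simpa [h, h1] using this.tendsto
  · obtain ⟨s, hs⟩ : ∃ s : ℝ, m 0 = s := ⟨_, (Complex.ext rfl h0 : m 0 = (m 0).re)⟩
    obtain ⟨t, ht⟩ : ∃ s : ℝ, m 1 = s := ⟨_, (Complex.ext rfl h1 : m 1 = (m 1).re)⟩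
    have c0 : c m ≠ 0 := fun e => by
      have a := congrArg re e
      have b := congrArg im e
      simp [c, hs, ht] at a b h
      rcases b with b | b
      · exact h b
      · exact h (by linarith)
    have g : ContinuousAt γ m := ContinuousAt.div (by fun_prop) (ac m).continuousAt c0
    have : ContinuousAt δ m :=
      ((show Continuous fun w : E => (w 0).im + (w 1).im by fun_prop).continuousAt.add
        (continuous_im.continuousAt.comp (f := fun w => w 0 ^ 2 * γ w)
          (((an 0 m).continuousAt.pow 2).mul g))).sub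
        (continuous_normSq.continuousAt.comp (f := fun w => w 0 * γ w)
          ((an 0 m).continuousAt.mul g))
    have e : δ m = 0 := by
      have : (γ m).im = normSq (γ m) := by
        rw [γ, normSq_div, div_im, eq_div_iff (normSq_pos.2 c0).ne']
        field_simp [(normSq_pos.2 c0).ne']
        simp [c, hs, ht]; ring
      simp [δ, hs, ht, sq, this]
    exact tendsto_nhdsWithin_of_tendsto_nhds (e ▸ this.tendsto)

lemma noext {V : Set E} (hV : V ∈ 𝓝 0) {F : E → EuclideanSpace ℂ (Fin 2)} (hF : AnalyticOnNhd ℂ F V)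
    (h : ∀ w ∈ V, w ∈ ball (0 : E) (1 / 4) → (∀ i, 0 < (w i).im) → F w = (q w)⁻¹ • p w) : False := by
  obtain ⟨r, r0, hr⟩ := Metric.mem_nhds_iff.1 (inter_mem hV (ball_mem_nhds 0 (show 0 < 1 / 4 by norm_num)))
  have op : IsOpen {w : E | ∀ i, 0 < (w i).im} := by
    rw [Set.ofPred_forall]
    exact isOpen_iInter_of_finite fun i => isOpen_lt continuous_const (by fun_prop)
  have m : (fun _ => (r / 2 : ℝ) * I : E) ∈ ball 0 r := by
    rw [mem_ball_zero_iff, pi_norm_const, norm_mul, norm_I, norm_real, Real.norm_of_nonneg (by linarith)]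
    linarith
  have e := AnalyticOnNhd.eqOn_of_preconnected_of_eventuallyEq (f := fun w => q w • F w) (g := p)
    (fun w hw => (aq w).smul (hF w (hr hw).1)) (fun w _ => ap w) (convex_ball 0 r).isPreconnected m
    (by
      filter_upwards [isOpen_ball.mem_nhds m, op.mem_nhds fun i => by simpa using r0] with w a b
      rw [h w (hr a).1 (hr a).2 b, smul_inv_smul₀ (nrm (hr a).2 (b 0) (b 1)).1])
  have n : ContinuousAt (fun s : ℂ => 1 - I * s) 0 := by fun_prop
  have t : ContinuousAt (fun s : ℂ => (![s, -s / (1 - I * s)] : E)) 0 := continuousAt_pi.2 fun i => by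
    fin_cases i
    · exact continuousAt_id
    · exact continuousAt_id.neg.div n (by simp)
  have z : (![0, -0 / (1 - I * 0)] : E) = 0 := by simp
  have l : ContinuousAt (fun s : ℂ => s * F ![s, -s / (1 - I * s)] 1) 0 := by
    exact continuousAt_id.mul ((EuclideanSpace.proj (𝕜 := ℂ) (1 : Fin 2)).continuous.continuousAt.comp
      ((hF 0 (mem_of_mem_nhds hV)).continuousAt.comp_of_eq t z))
  have := tendsto_nhds_unique (l.tendsto.mono_left (nhdsWithin_le_nhds (s := {0}ᶜ)))
    ((tendsto_const_nhds (x := (2 : ℂ))).congr' (by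
      filter_upwards [self_mem_nhdsWithin, nhdsWithin_le_nhds (n.eventually_ne (y := 0) (by simp)),
        nhdsWithin_le_nhds (t.preimage_mem_nhds (t := ball 0 r) (by rw [z]; exact ball_mem_nhds 0 r0))] with s a b d
      have k := congrArg (· 1) (e d)
      have a' : s ≠ 0 := a
      have t0 : -s / (1 - I * s) ≠ 0 := div_ne_zero (neg_ne_zero.2 a') b
      have c0 : c ![s, -s / (1 - I * s)] = 0 := by
        have := div_mul_cancel₀ (-s) b
        simp only [c, Matrix.cons_val_zero, Matrix.cons_val_one]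
        linear_combination this
      beta_reduce at k
      generalize -s / (1 - I * s) = t at *
      simp [q, p, c0] at k
      exact mul_left_cancel₀ (mul_ne_zero (pow_ne_zero 2 a') t0) (by linear_combination -k)))
  simp at this

end Pool.Agent.H.MP_5915c0_an
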